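import Pool.Agent.H46.S.Class
import Pool.Agent.H32.S.Ext

/-!
# Corner test of `MV` and `Fib` (file `Pool/Agent/H46/S/Class`), by helper30, not the author
-/

namespace Pool.Agent.H30.ST

open Pool.Agent.H46.S Submodule

/-- the lattice: a hyperbolic plane. -/
abbrev Lm : Type := ℤ × ℤ

/-- its form. -/
def qq (x y : Lm) : ℤ := x.1 * y.2 + x.2 * y.1

/-- the isotropic class. -/
def Lc : Lm := (1, 0)

/-- the ample classes. -/
def Am : Set Lm := {a | 0 < a.1 ∧ 0 < a.2}

/-- sections of `Λ^p T ⊗ L^k` for `T = (- L)^N`. -/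
noncomputable def mvT (N p : ℕ) (k : ℤ) : MSub ℂ N p := if (p : ℤ) ≤ k then ExtC ⊤ p else ⊥

open Classical in
/-- `h^0`. -/
noncomputable def dd (x : Lm) : ℕ := if x.2 = 0 ∧ 0 ≤ x.1 then 1 else 0

/-- parallel sections. -/
noncomputable def parT (N : ℕ) (KT : Submodule ℂ (Fin N → ℂ)) (p k : ℕ) : MSub ℂ N p :=
  mvT N p k ⊓ ExtC KT p

/-- `h^p`. -/
noncomputable def hT (N : ℕ) (KT : Submodule ℂ (Fin N → ℂ)) (p : ℕ) (x : Lm) : ℕ :=
  dimC (parT N KT p x.1.toNat)

theorem line_one {N p : ℕ} {P : (Fin p → Fin N) → ℂ} (hP : P ≠ 0) :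
    dimC (LineC P) = 1 := by
  unfold dimC LineC
  exact finrank_span_singleton hP

theorem line_le {N p : ℕ} {P : (Fin p → Fin N) → ℂ}
    (hP : P ∈ ExtC (⊤ : Submodule ℂ (Fin N → ℂ)) p) : LineC P ≤ ExtC ⊤ p := by
  intro v hv
  have hv' : v ∈ span ℂ ({P} : Set ((Fin p → Fin N) → ℂ)) := hv
  have : span ℂ ({P} : Set ((Fin p → Fin N) → ℂ)) ≤ Ext ⊤ p := by
    rw [span_singleton_le_iff_mem]
    exact hP
  exact this hv'

/-- THE TOY: `T = (- L)^N` on a variety with function field `ℂ`, one section of each `k L`,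
`k ≥ 0`, and a proper subspace `KT`. -/
noncomputable def toy (N : ℕ) (KT : Submodule ℂ (Fin N → ℂ)) (hK : KT ≠ ⊤) :
    MV ℂ N Lm qq ⊤ Am Lc dd (hT N KT) True where
  mv := mvT N
  mv_fin := by
    intro p k
    refine ⟨inferInstance, ?_⟩
    unfold mvT
    split_ifs
    · exact le_rfl
    · exact bot_le
  cl := fun p _ => (-(p : ℤ), 0)
  cl_NS := fun _ _ => trivial
  line := by
    intro p P hP k
    have e : k • Lc + ((-(p : ℤ), 0) : Lm) = (k - p, 0) := by
      ext <;> simp [Lc, sub_eq_add_neg]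
    rw [e]
    unfold mvT dd
    by_cases h : (p : ℤ) ≤ k
    · have h' : (0 : ℤ) ≤ k - p := by linarith
      rw [if_pos h, inf_eq_right.2 (line_le hP.1), line_one hP.2]
      simp [h]
    · have h' : ¬ (0 : ℤ) ≤ k - p := by
        intro h2
        exact h (by linarith)
      rw [if_neg h, bot_inf_eq]
      simp only [h', and_false, if_false]
      unfold dimC
      exact finrank_bot ℂ _
  polystable := by
    intro p P _ a ha
    obtain ⟨h1, h2⟩ := ha
    simp only [qq]
    have : (0 : ℤ) ≤ p := Int.natCast_nonneg p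
    nlinarith
  stable := by
    intro p hp _ w _ a ha
    obtain ⟨h1, h2⟩ := ha
    simp only [qq]
    have : (0 : ℤ) < p := by exact_mod_cast hp
    nlinarith
  bochner := by
    intro p hp P hP hP0
    exfalso
    have h : ¬ ((p : ℤ) ≤ 0) := by
      intro h
      have : (0 : ℤ) < p := by exact_mod_cast hp
      linarith
    unfold mvT at hP
    rw [if_neg h] at hP
    exact hP0 hP
  quotient := by
    intro r w _ _
    simp [qq, Lc]
  cross := by
    intro w hw t ht
    have ht3 : t = 3 := by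
      have := congrArg Prod.fst ht
      simp [Lc] at this
      linarith
    subst ht3
    refine ⟨1, one_ne_zero, ?_⟩
    intro k k' x x' h1 h2
    by_cases hk : (1 : ℤ) ≤ k + k' - 3
    · unfold mvT
      rw [if_pos (by exact_mod_cast hk)]
      exact wed_mem (fun i => by simp)
    · have key : ∀ (y : Fin 3 → ℂ) (l : ℤ), l < 2 →
          (y 0 • wed ![w 1, w 2] + y 1 • wed ![w 2, w 0] + y 2 • wed ![w 0, w 1] ∈
            mvT N 2 l) → y = 0 := by
        intro y l hl hy
        unfold mvT at hy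
        have hl' : ¬ (((2 : ℕ) : ℤ) ≤ l) := by
          push_cast
          linarith
        rw [if_neg hl'] at hy
        have hy0 := (Submodule.mem_bot ℂ).1 hy
        apply psi_injective w hw
        rw [psi_apply, map_zero]
        exact hy0
      have hc : crossProduct x x' = 0 := by
        rcases lt_or_ge k 2 with h | h
        · rw [key x k h h1]
          simp
        · have h' : k' < 2 := by linarith
          rw [key x' k' h' h2]
          simp
      have hz : (1 : ℂ) • ∑ i, crossProduct x x' i • w i = 0 := by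
        rw [hc]
        simp
      rw [hz]
      have : wed ![(0 : Fin N → ℂ)] = 0 := by
        funext a
        rw [wed_one]
        simp
      rw [this]
      exact Submodule.zero_mem _
  par := parT N KT
  wu := by
    intro _ p k _ _
    have : (k • Lc : Lm).1.toNat = k := by
      simp [Lc]
    unfold hT
    rw [this]
  KT := KT
  KT_ne := fun _ => hK
  par_iff := fun _ _ _ _ => rfl

/-- The fields of `Fib` except the last two, with the function `h0` of the sections as a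
parameter. -/
structure FibData where
  N : Type
  [grp : AddCommGroup N]
  [mod : Module ℝ N]
  b : N →ₗ[ℝ] N →ₗ[ℝ] ℝ
  b_symm : ∀ x y, b x y = b y x
  H : N
  hodge : ∀ x, b H x = 0 → x ≠ 0 → b x x < 0
  Nef : Set N
  Eff : Set N
  nef_nef : ∀ x ∈ Nef, ∀ y ∈ Nef, 0 ≤ b x y
  nef_eff : ∀ x ∈ Nef, ∀ y ∈ Eff, 0 ≤ b x y
  H_nef : H ∈ Nef
  l : N
  l_nef : l ∈ Nef
  l_ne : l ≠ 0
  l_sq : b l l = 0
  c : ℝ
  c_pos : 0 < c
  E : N
  C : ℝ
  C_pos : 0 ≤ C
  C_eff : C • l - E ∈ Eff
  E_eff : E ∈ Eff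
  P : N
  P_nef : P ∈ Nef
  G : N
  G_eff : G ∈ Eff
  eq : c • l + E = P + G
  neg : P - c • l ∈ Eff

attribute [instance] FibData.grp FibData.mod

/-- the hyperbolic plane over the reals. -/
def bb : (ℝ × ℝ) →ₗ[ℝ] (ℝ × ℝ) →ₗ[ℝ] ℝ :=
  LinearMap.mk₂ ℝ (fun x y => x.1 * y.2 + x.2 * y.1)
    (fun x y z => by simp only [Prod.fst_add, Prod.snd_add]; ring)
    (fun c x y => by simp only [Prod.smul_fst, Prod.smul_snd, smul_eq_mul]; ring)
    (fun x y z => by simp only [Prod.fst_add, Prod.snd_add]; ring)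
    (fun c x y => by simp only [Prod.smul_fst, Prod.smul_snd, smul_eq_mul]; ring)

theorem bb_apply (x y : ℝ × ℝ) : bb x y = x.1 * y.2 + x.2 * y.1 := rfl

/-- The quadrant. -/
def Qd : Set (ℝ × ℝ) := {x | 0 ≤ x.1 ∧ 0 ≤ x.2}

theorem quad {x y : ℝ × ℝ} (hx : x ∈ Qd) (hy : y ∈ Qd) : 0 ≤ bb x y := by
  rw [bb_apply]
  exact add_nonneg (mul_nonneg hx.1 hy.2) (mul_nonneg hx.2 hy.1)

/-- All fields of `Fib` except `iitaka` and `gm` hold in the hyperbolic plane, with `E = 0` and
`P = l`; either of the two remaining fields can be satisfied, and not both (`Fib.false`). -/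
noncomputable def fibData : FibData where
  N := ℝ × ℝ
  b := bb
  b_symm := fun x y => by rw [bb_apply, bb_apply]; ring
  H := (1, 1)
  hodge := by
    intro x hx hx0
    rw [bb_apply] at hx ⊢
    have h : x.2 = - x.1 := by
      have : (1 : ℝ) * x.2 + 1 * x.1 = 0 := hx
      linarith
    have h1 : x.1 ≠ 0 := by
      intro h1
      apply hx0
      ext
      · exact h1
      · rw [h, h1]; simp
    rw [h]
    have := mul_self_pos.2 h1
    nlinarith
  Nef := Qd
  Eff := Qd
  nef_nef := fun _ hx _ hy => quad hx hy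
  nef_eff := fun _ hx _ hy => quad hx hy
  H_nef := ⟨zero_le_one, zero_le_one⟩
  l := (1, 0)
  l_nef := ⟨zero_le_one, le_rfl⟩
  l_ne := by
    intro h
    have := congrArg Prod.fst h
    simp at this
  l_sq := by rw [bb_apply]; simp
  c := 1
  c_pos := one_pos
  E := 0
  C := 0
  C_pos := le_rfl
  C_eff := by
    rw [zero_smul, sub_zero]
    exact ⟨le_rfl, le_rfl⟩
  E_eff := ⟨le_rfl, le_rfl⟩
  P := (1, 0)
  P_nef := ⟨zero_le_one, le_rfl⟩
  G := 0
  G_eff := ⟨le_rfl, le_rfl⟩
  eq := by rw [one_smul]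
  neg := by
    rw [one_smul, sub_self]
    exact ⟨le_rfl, le_rfl⟩

/-- `Fib` is `FibData` with `iitaka` and `gm`. -/
def toFib (D : FibData) (h0 : ℕ → ℕ) (iitaka : ∀ k, h0 k ≤ 1)
    (gm : ∀ t : ℝ, 0 < t → D.P = t • D.l → ∃ k, 2 ≤ h0 k) : Fib :=
  { N := D.N, b := D.b, b_symm := D.b_symm, H := D.H, hodge := D.hodge, Nef := D.Nef, Eff := D.Eff,
    nef_nef := D.nef_nef, nef_eff := D.nef_eff, H_nef := D.H_nef, l := D.l, l_nef := D.l_nef,
    l_ne := D.l_ne, l_sq := D.l_sq, c := D.c, c_pos := D.c_pos, E := D.E, C := D.C,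
    C_pos := D.C_pos, C_eff := D.C_eff, E_eff := D.E_eff, P := D.P, P_nef := D.P_nef, G := D.G,
    G_eff := D.G_eff, eq := D.eq, neg := D.neg, h0 := h0, iitaka := iitaka, gm := gm }

/-- the field `iitaka` alone. -/
theorem iitaka_ok : ∃ h0 : ℕ → ℕ, ∀ k, h0 k ≤ 1 := ⟨fun _ => 1, fun _ => le_rfl⟩

/-- the field `gm` alone. -/
theorem gm_ok : ∃ h0 : ℕ → ℕ, ∀ t : ℝ, 0 < t → fibData.P = t • fibData.l → ∃ k, 2 ≤ h0 k :=
  ⟨fun k => k + 1, fun _ _ _ => ⟨1, le_rfl⟩⟩

end Pool.Agent.H30.ST
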